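import Pool.Agent.H19.VAS.Obj
import Pool.Agent.H19.VAS.SubT
import Pool.Agent.H12.LSH.Smp

/-!
# (H3) on a sub-law
-/

set_option autoImplicit false

namespace Pool.VAS

open Finset MvPolynomial
open Pool.Agent.H49.Ent Pool.Agent.H32.Dense Pool.STK Pool.STAT Pool.MIC Pool.MicA
open Pool.BFL (Pl Pb)
open Pool.TIE (SubL)
open Pool.LSH

/-- **(H3)** on a sub-law. -/
theorem h3T : H3TStmt := by
  classical
  intro n K₀ N k D π J w z X bb c₁ θ ι q ω₀ a Om _ P f G hc hq hs hf hι r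
  have h1 : (1 : ℝ) ≤ 2 ^ X := one_le_pow₀ (by norm_num)
  obtain ⟨F, hF⟩ : ∃ F : Finset ℤ, F = Finset.Icc (-2 ^ X) (2 ^ X) := ⟨_, rfl⟩
  have hc1 : (F.card : ℝ) = 2 * 2 ^ X + 1 := by
    have e : F.card = 2 * 2 ^ X + 1 := by
      rw [hF, Int.card_Icc]
      have : ((2 : ℤ) ^ X + 1 - -2 ^ X) = ((2 * 2 ^ X + 1 : ℕ) : ℤ) := by push_cast; ring
      rw [this, Int.toNat_natCast]
    rw [e]
    push_cast
    ring
  have hin : ∀ x : D.Λ × ℕ, yd D π q J w ω₀ X x r ∈ F := fun x => by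
    have h := yd_all D π q J w ω₀ X x r
    rw [abs_div, abs_of_pos (by positivity : (0 : ℝ) < 2 ^ X), div_le_one (by positivity)] at h
    rw [hF, Finset.mem_Icc]
    have h' : |yd D π q J w ω₀ X x r| ≤ 2 ^ X := by exact_mod_cast h
    exact abs_le.1 h'
  obtain ⟨M, hM⟩ : ∃ M : ℝ, M = Real.log (2 * 2 ^ X + 1) := ⟨_, rfl⟩
  have hM1 : X * Real.log 2 ≤ M := by
    rw [hM, ← Real.log_pow]
    exact Real.log_le_log (by positivity) (by linarith)
  have hM2 : M ≤ X * Real.log 2 + 2 := by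
    rw [hM]
    have e1 : Real.log (2 * 2 ^ X + 1) ≤ Real.log (4 * 2 ^ X) :=
      Real.log_le_log (by positivity) (by linarith)
    rw [Real.log_mul (by norm_num) (by positivity), Real.log_pow,
      show (4 : ℝ) = 2 ^ 2 by norm_num, Real.log_pow] at e1
    have := Real.log_two_lt_d9
    push_cast at e1
    linarith
  have key := sub_full hq hc hs (fun ω => yd D π q J w ω₀ X (D.wn J w ω) r)
    (fun ω => Zd D π q J w ω₀ X r (D.wn J w ω)) (M := M) (θ := θ + 2)
    (hM1.trans' (by positivity))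
    (fun Ω'' _ ρ g hρ => by
      refine (CH_le_card hρ.nonneg hρ.sum_one _ _ (fun _ => F) fun ω _ => hin _).trans
        (le_of_eq ?_)
      rw [Ex_const hρ.sum_one, hc1, hM])
    (by have := hf r; linarith)
  have e1 : (θ + 2 + Real.log 2) / c₁ ≤ (θ + 5) / c₁ :=
    div_le_div_of_nonneg_right (by have := Real.log_two_lt_d9; linarith) hc.le
  refine le_trans ?_ key
  show (1 - ι) * X * Real.log 2 ≤ M - (θ + 2 + Real.log 2) / c₁
  linarith

end Pool.VAS
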