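import Pool.Agent.H41.VAS.Frz

/-!
# The motion of the target on the line, as a polynomial in the time

`gln`: the difference of the labels of the target at `a` and at the base pair, along the line minus
along the frozen path; a function of the line and its window.
-/

set_option autoImplicit false

namespace Pool.VAS

open Finset MvPolynomial
open Pool.Agent.H49.Ent Pool.Agent.H32.Dense Pool.STK Pool.STAT Pool.MIC Pool.MicA Pool.PTH
open Pool.MIC.Frm (nat pt pt_eq)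
open Pool.BFL (Pl Pb)
open Pool.GSD (vtP wof fpt fpt_wof)
open Pool.LSH
open scoped Polynomial

/-- The motion of the target on the line. -/
noncomputable def gln (D : NDat2) {k : ℕ} (π : Pls k) (q : D.Ω → ℝ) (J w : ℕ) (ω₀ : D.Ω)
    (n X N : ℕ) (a : ℕ × ℕ) (x : D.Λ × ℕ) : ℝ[X] :=
  Qp D J w π.o.1 π.o.2 (rp D q J w ω₀ x) n -
    Polynomial.C (2 ^ D.g π.o.1 π.o.2 n / 2 ^ D.g a.1 a.2 n) *
      Qp D J w a.1 a.2 (rp D q J w ω₀ x) n -
    ∑ i : Fin (N + 1), Polynomial.C (cf1 N (dnf D π n w X a (Vd D π q J w ω₀ X a x).1) i) *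
      Polynomial.X ^ i.val

section

variable {D : NDat2} {n K J a₀ w₀ z M k w X X₁ : ℕ} {lam gam : ℕ → ℝ} {κ C₁ : ℝ} {q : D.Ω → ℝ}
  {π : Pls k} {ω : D.Ω} {a : ℕ × ℕ}

theorem gln_deg (hO : D.Ok2 n K J a₀ w₀ z M lam gam κ C₁ q) (ω₀ : D.Ω) (N : ℕ)
    (x : D.Λ × ℕ) : (gln D π q J w ω₀ n X N a x).natDegree ≤ K * (K + 1) + N := by
  unfold gln
  refine (Polynomial.natDegree_sub_le _ _).trans (max_le
    ((Polynomial.natDegree_sub_le _ _).trans (max_le ?_ ?_)) ?_)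
  · exact (Qp_deg hO.pa_deg hO.P_deg _ _).trans (Nat.le_add_right _ _)
  · exact (Polynomial.natDegree_C_mul_le _ _).trans
      ((Qp_deg hO.pa_deg hO.P_deg _ _).trans (Nat.le_add_right _ _))
  · refine Polynomial.natDegree_sum_le_of_forall_le _ _ fun i _ => ?_
    refine (Polynomial.natDegree_C_mul_X_pow_le _ _).trans ?_
    have := i.2
    omega

/-- The value at the time of a sample. -/
theorem gln_eval (hO : D.Ok2 n K J a₀ w₀ z M lam gam κ C₁ q) (hw : w ≤ J) (ω₀ : D.Ω)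
    (do' : Det q (D.wn J w) (D.c π.o.1 π.o.2)) (da : Det q (D.wn J w) (D.c a.1 a.2))
    (hω : 0 < q ω) {N : ℕ} (hN : (K + 1) ^ (n + 1) ≤ N) :
    (gln D π q J w ω₀ n X N a (D.wn J w ω)).eval (tm D J w ω) =
      zt D π.o.1 π.o.2 ω n - 2 ^ D.g π.o.1 π.o.2 n / 2 ^ D.g a.1 a.2 n * zt D a.1 a.2 ω n -
        2 ^ D.g π.o.1 π.o.2 n *
          (eval (xvp D π w X a (Vd D π q J w ω₀ X a (D.wn J w ω)).1 (tm D J w ω))
              (D.Φ a.1 a.2 ω n) -
            eval (xvp D π w X a (Vd D π q J w ω₀ X a (D.wn J w ω)).1 (tm D J w ω))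
              (D.Φ π.o.1 π.o.2 ω n)) := by
  obtain ⟨r1, r2⟩ := rp_spec J w ω₀ hω
  have e1 : Qp D J w π.o.1 π.o.2 (rp D q J w ω₀ (D.wn J w ω)) n = Qp D J w π.o.1 π.o.2 ω n :=
    Qp_congr do' r1 hω r2 n
  have e2 : Qp D J w a.1 a.2 (rp D q J w ω₀ (D.wn J w ω)) n = Qp D J w a.1 a.2 ω n :=
    Qp_congr da r1 hω r2 n
  have e3 : (Qp D J w π.o.1 π.o.2 ω n).eval (tm D J w ω) = zt D π.o.1 π.o.2 ω n :=
    zt_Qp hO hw hω le_rfl
  have e4 : (Qp D J w a.1 a.2 ω n).eval (tm D J w ω) = zt D a.1 a.2 ω n :=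
    zt_Qp hO hw hω le_rfl
  have e5 := cf1_spec ((dnf_P2 (π := π) (n := n) hO.P_tri hO.P_deg w X a
    (Vd D π q J w ω₀ X a (D.wn J w ω)).1).mono hN) (tm D J w ω)
  rw [dnf_eq n ω₀ do' da hω] at e5
  unfold gln
  rw [Polynomial.eval_sub, Polynomial.eval_sub, Polynomial.eval_mul, Polynomial.eval_C, e1, e2,
    e3, e4, Polynomial.eval_finsetSum]
  congr 1
  rw [← show gl D π.o n = D.g π.o.1 π.o.2 n from rfl, ← e5]
  refine Finset.sum_congr rfl fun i _ => ?_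
  rw [Polynomial.eval_mul, Polynomial.eval_C, Polynomial.eval_pow, Polynomial.eval_X]

end

end Pool.VAS
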