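import Pool.Agent.H19.VAS.Obj
import Pool.Agent.H19.VAS.SubT
import Pool.Agent.H41.VAS.Gln

/-!
# The values of the total sheet along the true path

`valT`: the total sheet along the true path is the shape along the frozen path plus a polynomial of
the time on the line, up to the error of the leaf on the line side.
-/

set_option autoImplicit false

namespace Pool.VAS

open Finset MvPolynomial
open Pool.Agent.H49.Ent Pool.Agent.H32.Dense Pool.STK Pool.STAT Pool.MIC Pool.MicA Pool.PTH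
open Pool.MIC.Frm (sl nat)
open Pool.BFL (Pl Pb)
open Pool.TIE (SubL)
open Pool.GSD (vtP wof fpt fpt_wof PiS eval_PiS deg_scl_le deg_C_mul vtP_vars vtP_deg)
open Pool.LSH
open scoped Polynomial

namespace VT

/-- The degree of the height of the total sheet. -/
theorem kTr_deg {D : NDat2} {n z i j K K' : ℕ} {ω : D.Ω} {F : Pl (n - 1)}
    (dP : ∀ l, (D.Φ i j ω l).totalDegree ≤ K) (tP : TriN (D.Φ i j ω))
    (dG : ∀ l, (D.Ψ i j ω l).totalDegree ≤ K) (tG : TriN (D.Ψ i j ω))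
    (hF : F.totalDegree ≤ K') : (kTr D n z i j F ω).totalDegree ≤ dT n K K' := by
  unfold kTr dT
  refine (deg_scl_le _ _ _).trans ((deg_C_mul _ _).trans ((Pool.MIC.Frm.deg_sl _ _).trans ?_))
  refine Pool.MIC.Frm.deg_fr (m := n) (Pool.MicA.tri_atT tP _) (fun k _ => ?_)
    (AdxRow.vars_sub_le (vtP_vars tG F) (tP n))
    ((totalDegree_sub _ _).trans (max_le (vtP_deg dG hF)
      ((dP n).trans (Nat.le_add_right _ _))))
  unfold atT
  by_cases hk : k = 0
  · subst hk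
    rw [Function.update_self, totalDegree_C]
    exact Nat.zero_le _
  · rw [Function.update_of_ne hk]
    exact dP k

/-- The value of the height of the total sheet. -/
theorem kTr_wof {D : NDat2} {n z i j : ℕ} {ω : D.Ω} (F : Pl (n - 1))
    (tP : TriN (D.Φ i j ω)) (tG : TriN (D.Ψ i j ω)) {b : ℕ → ℝ} (hb : b 0 = D.X ω 0) :
    eval (wof D n z i j (D.Φ i j) ω b) (kTr D n z i j F ω) =
      2 ^ D.g i j n * (eval b (vtP n z (D.g i j) (D.Ψ i j ω) F) - eval b (D.Φ i j ω n)) := by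
  refine (eval_PiS D n z i j (D.Φ i j) (fun _ => vtP n z (D.g i j) (D.Ψ i j ω) F) ω _).trans ?_
  congr 2
  · exact Pool.SYS35.eval_congr (vtP_vars tG F) fun k hk => fpt_wof tP hb hk
  · exact Pool.SYS35.eval_congr (tP _) fun k hk => fpt_wof tP hb hk

/-- The value of the shape at zero. -/
theorem fd_zero (n K₀ z bb : ℕ) {k : ℕ} (π : Pls k) {R : Pl (n - 1)} (hR : R.totalDegree ≤ K₀)
    (hR' : ∀ α, |coeff α R| ≤ 2 ^ bb) :
    eval 0 (Fd n K₀ z bb π R) = eval (fun _ => 1 / 2) R := by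
  rw [eval_Fd n K₀ z bb π hR hR']
  refine congrArg (fun v : Fin (n - 1) → ℝ => eval v R) ?_
  funext l
  split_ifs with h
  · rw [Pi.zero_apply, mul_zero, zero_add]
  · rfl

end VT

open VT

/-- **The values.** -/
theorem valT : ValTStmt := by
  intro n K K' K₀ N
  refine ⟨K * (K + 1) + (K + 1) ^ (n + 1) + 1, ?_⟩
  intro D k π J a₀ w₀ z M X bb Bb lam gam κ C₁ c₁ c acc cc q ω₀ a Om _ P f G G₀ G' H
  have hO := H.ok
  have hwJ := H.wJ
  obtain ⟨w, hw⟩ : ∃ w, w = w₀ + π.o.2 * z := ⟨_, rfl⟩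
  rw [← hw] at hwJ ⊢
  refine ⟨fun x => gln D π q J w ω₀ n X ((K + 1) ^ (n + 1)) a x, fun x => ?_, ?_⟩
  · refine lt_of_le_of_lt Polynomial.degree_le_natDegree ?_
    have h1 := gln_deg (w := w) (X := X) (π := π) (a := a) hO ω₀ ((K + 1) ^ (n + 1)) x
    exact_mod_cast Nat.lt_succ_of_le h1
  · intro v hv hPv
    have hω : 0 < q (f v) := sub_pos H.c1 H.sub hPv
    obtain ⟨hG0, hL, hcf⟩ := H.good v hv hPv
    have do' : Det q (D.wn J w) (D.c π.o.1 π.o.2) :=
      det_c hO H.o_le.1 H.o_le.2 hw.ge hwJ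
    have da : Det q (D.wn J w) (D.c a.1 a.2) :=
      det_c hO H.a_le.1 (H.a_le.2.trans H.o_le.2)
        (le_trans (Nat.add_le_add_left (Nat.mul_le_mul_right z H.a_le.2) w₀) hw.ge) hwJ
    have hk : ∀ r, 1 ≤ π.co r := fun r => (H.co_lt r).1
    have eT : thq J w (thr D J w (f v)) = tm D J w (f v) := thq_eq J w (f v)
    have eR : kT D n z π.o.1 π.o.2 bb (G v) (f v) = kTr D n z π.o.1 π.o.2 (G v) (f v) := by
      unfold kT
      rw [if_pos hcf]
    have tP : TriN (D.Φ π.o.1 π.o.2 (f v)) := hO.P_tri _ _ _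
    have tG : TriN (D.Ψ π.o.1 π.o.2 (f v)) := hO.G_tri _ _ _
    have dR : (kTr D n z π.o.1 π.o.2 (G v) (f v)).totalDegree ≤ K₀ :=
      (kTr_deg (fun l => hO.P_deg _ _ _ l) tP (fun l => hO.G_deg _ _ _ l) tG (H.deg v)).trans
        H.K₀_ge
    have hsh := H.shf
    rw [← hw] at hsh
    obtain ⟨hb1, hb2⟩ := hsh.box (f v) hG0 hω
    have hb3 := hsh.hts (f v) hG0 hω
    -- enlarge the boxes
    have hup : ∀ m : ℕ, (2 : ℝ) ^ c / 2 ^ m ≤ 2 ^ (Bb * z) / 2 ^ m := fun m =>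
      div_le_div_of_nonneg_right H.cBb (by positivity)
    have hb1' : BxB D n π.o.1 π.o.2 a.1 a.2 (2 ^ (Bb * z)) (f v) (D.X (f v)) :=
      ⟨hb1.1, fun l h1 h2 => (hb1.2.1 l h1 h2).trans (hup _),
        fun l h1 h2 h3 => (hb1.2.2 l h1 h2 h3).trans (hup _)⟩
    have hb2' : BxB D n π.o.1 π.o.2 a.1 a.2 (2 ^ (Bb * z)) (f v) (xvs D π q J w ω₀ X a (f v)) :=
      ⟨hb2.1, fun l h1 h2 => (hb2.2.1 l h1 h2).trans (hup _),
        fun l h1 h2 h3 => (hb2.2.2 l h1 h2 h3).trans (hup _)⟩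
    have hb3' : ∀ l, 1 ≤ l → l < n → D.g π.o.1 π.o.2 l < D.g a.1 a.2 l →
        |(D.X (f v) l - eval (D.X (f v)) (D.Φ a.1 a.2 (f v) l)) -
          (xvs D π q J w ω₀ X a (f v) l -
            eval (xvs D π q J w ω₀ X a (f v)) (D.Φ a.1 a.2 (f v) l))| ≤
          2 ^ (Bb * z) / 2 ^ (D.g a.1 a.2 l + X) := fun l h1 h2 h3 =>
      (hb3 l h1 h2 h3).trans (hup _)
    have key := fr_id hL hb1' hb2' hb3'
    have ex : xvs D π q J w ω₀ X a (f v) =
        xvp D π w X a (Vd D π q J w ω₀ X a (D.wn J w (f v))).1 (tm D J w (f v)) := by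
      unfold xvs
      rw [eT]
    have eg := gln_eval (X := X) (π := π) (a := a) hO hwJ ω₀ do' da hω
      (N := (K + 1) ^ (n + 1)) le_rfl
    rw [← ex] at eg
    -- the value on the frozen path
    have e1 : (shT D π q J w ω₀ n X N K₀ z bb a P f G).val (D.wn J w (f v))
        (D.c π.o.1 π.o.2 (f v), (thr D J w (f v), kT D n z π.o.1 π.o.2 bb (G v) (f v))) =
        eval (VAS.xf D π q J w ω₀ X a (D.wn J w (f v)) (thq J w (thr D J w (f v))))
            (Fd n K₀ z bb π (kT D n z π.o.1 π.o.2 bb (G v) (f v))) -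
          eval 0 (Fd n K₀ z bb π (kT D n z π.o.1 π.o.2 bb (G v) (f v))) := rfl
    have e2 := val_frz (X := X) hO hk hwJ ω₀ do' da hω (a := a) dR hcf
    rw [← ex] at e2
    have e3 := kTr_wof (D := D) (z := z) (G v) tP tG hb2.1
    have e4 := kTr_wof (D := D) (z := z) (G v) tP tG hb1.1
    rw [wof_own] at e4
    rw [e1, eR, eT, fd_zero n K₀ z bb π dR hcf, e2, e3, e4, eg]
    refine le_trans (le_of_eq ?_) key
    congr 1
    ring

end Pool.VAS
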