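import Pool.Agent.H12.LSH.Shf
import Pool.Agent.H41.GSD.Lf2

/-!
# The total sheet along the line and along the frozen path

`fr_id`: the difference of the heights of the total sheet over the line side at the sample and at the
frozen point is a polynomial in the time on the line, by the leaf on the line side. `val_frz`: the
shape in the ranked coordinates along the frozen path is the height at the frozen point.
-/

set_option autoImplicit false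

namespace Pool.VAS

open Finset MvPolynomial
open Pool.Agent.H49.Ent Pool.Agent.H32.Dense Pool.STK Pool.STAT Pool.MIC Pool.MicA Pool.PTH
open Pool.MIC.Frm (nat pt pt_eq)
open Pool.BFL (Pl Pb)
open Pool.GSD (vtP wof fpt fpt_wof)
open Pool.LSH
open scoped Polynomial

section

variable {D : NDat2} {n K J a₀ w₀ z M k w X X₁ : ℕ} {lam gam : ℕ → ℝ} {κ C₁ : ℝ} {q : D.Ω → ℝ}
  {π : Pls k} {ω : D.Ω} {a : ℕ × ℕ} {F : Pl (n - 1)} {ρ ε : ℝ}

/-- **The leaf at the sample and at another point.** -/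
theorem fr_id (hL : LfB D n z π.o.1 π.o.2 a.1 a.2 X₁ F ρ ε ω) {b : ℕ → ℝ}
    (h1 : BxB D n π.o.1 π.o.2 a.1 a.2 ρ ω (D.X ω)) (h2 : BxB D n π.o.1 π.o.2 a.1 a.2 ρ ω b)
    (h3 : ∀ l, 1 ≤ l → l < n → D.g π.o.1 π.o.2 l < D.g a.1 a.2 l →
      |(D.X ω l - eval (D.X ω) (D.Φ a.1 a.2 ω l)) - (b l - eval b (D.Φ a.1 a.2 ω l))| ≤
        ρ / 2 ^ (D.g a.1 a.2 l + X₁)) :
    |2 ^ D.g π.o.1 π.o.2 n *
        ((eval (D.X ω) (vtP n z (D.g π.o.1 π.o.2) (D.Ψ π.o.1 π.o.2 ω) F) -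
          eval (D.X ω) (D.Φ π.o.1 π.o.2 ω n)) -
        (eval b (vtP n z (D.g π.o.1 π.o.2) (D.Ψ π.o.1 π.o.2 ω) F) -
          eval b (D.Φ π.o.1 π.o.2 ω n))) -
      (zt D π.o.1 π.o.2 ω n - 2 ^ D.g π.o.1 π.o.2 n / 2 ^ D.g a.1 a.2 n * zt D a.1 a.2 ω n -
        2 ^ D.g π.o.1 π.o.2 n * (eval b (D.Φ a.1 a.2 ω n) - eval b (D.Φ π.o.1 π.o.2 ω n)))| ≤
      ε := by
  have h := hL (D.X ω) b h1 h2 h3
  have hg : (0 : ℝ) < 2 ^ D.g π.o.1 π.o.2 n := by positivity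
  rw [le_div_iff₀ hg] at h
  refine le_trans (le_of_eq ?_) h
  have e4 : ∀ y : ℝ, |y| * 2 ^ D.g π.o.1 π.o.2 n = |y * 2 ^ D.g π.o.1 π.o.2 n| := fun y => by
    rw [abs_mul, abs_of_pos hg]
  rw [e4]
  congr 1
  unfold zt nat
  have : (2 : ℝ) ^ D.g a.1 a.2 n ≠ 0 := by positivity
  field_simp
  ring

/-- The scaled coordinates of the sample. -/
theorem wof_own (D : NDat2) (n z i j : ℕ) (ω : D.Ω) :
    wof D n z i j (D.Φ i j) ω (D.X ω) = fun l : Fin (n - 1) => up z (zt D i j ω (l + 1)) := rfl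

theorem up_zero (z : ℕ) : up z 0 = 1 / 2 := by
  unfold up
  have : (2 : ℝ) ^ z ≠ 0 := by positivity
  field_simp
  ring

theorem up_eq (z : ℕ) (x : ℝ) : up z x = 1 / (4 * 2 ^ z) * x + 1 / 2 := by
  unfold up
  have : (2 : ℝ) ^ z ≠ 0 := by positivity
  field_simp
  ring

/-- **The shape along the frozen path.** -/
theorem val_frz (hO : D.Ok2 n K J a₀ w₀ z M lam gam κ C₁ q) (hk : ∀ r, 1 ≤ π.co r) (hw : w ≤ J)
    (ω₀ : D.Ω) (do' : Det q (D.wn J w) (D.c π.o.1 π.o.2))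
    (da : Det q (D.wn J w) (D.c a.1 a.2)) (hω : 0 < q ω) {K₀ bb : ℕ} {R : Pl (n - 1)}
    (hR : R.totalDegree ≤ K₀) (hR' : ∀ α, |coeff α R| ≤ 2 ^ bb) :
    eval (VAS.xf D π q J w ω₀ X a (D.wn J w ω) (tm D J w ω)) (Fd n K₀ z bb π R) =
      eval (wof D n z π.o.1 π.o.2 (D.Φ π.o.1 π.o.2) ω
        (xvp D π w X a (Vd D π q J w ω₀ X a (D.wn J w ω)).1 (tm D J w ω))) R := by
  rw [eval_Fd n K₀ z bb π hR hR']
  refine congrArg (fun v : Fin (n - 1) → ℝ => eval v R) ?_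
  funext l
  have hl := l.2
  have hm := mp_xv hO hk hw ω₀ (X := X) do' da hω
  obtain ⟨x, hx⟩ : ∃ x, x = xvp D π w X a (Vd D π q J w ω₀ X a (D.wn J w ω)).1 (tm D J w ω) :=
    ⟨_, rfl⟩
  rw [← hx] at hm ⊢
  unfold wof
  split_ifs with h
  · rw [xf_eq hk ω₀ hω do', ← hx, up_eq]
    have e : π.co ⟨π.rk ((l : ℕ) + 1), h⟩ = (l : ℕ) + 1 := of_rk_eq rfl
    rw [e]
    rfl
  · have h1 := hm.out ((l : ℕ) + 1) (Nat.succ_pos _) (by omega) h
    rw [if_neg h, zero_div, add_zero] at h1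
    have e : nat (D.g π.o.1 π.o.2) (D.Φ π.o.1 π.o.2 ω) x ((l : ℕ) + 1) = 0 := by
      unfold nat
      rw [sub_eq_zero.2 h1, mul_zero]
    rw [e, up_zero]

end

end Pool.VAS
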