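import Pool.Agent.H7.MIC.Plk
import Pool.Agent.H41.GSD.HtB

/-!
# Two samples of one exact point

Their natural heights at `(i, j)` over the visible side agree to `X` digits, if the room of radii is
more than `X` digits.
-/

set_option autoImplicit false

namespace Pool.VAS

open Finset Real MvPolynomial
open Pool.Agent.H49.Ent Pool.Agent.H32.Dense Pool.STK Pool.STAT Pool.MIC Pool.MicA
open Pool.BFL (Pl Pb)
open Pool.GSD (FrP Fra fra_iff Sd sd_vis frm_ev ztS)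

/-- **Two samples of one exact point**, on a frame. -/
theorem two_fr (n K' : ℕ) (C C₁ : ℝ) (hC : 0 ≤ C) : ∃ A : ℕ, 1 ≤ A ∧
    ∀ (D : NDat2) (K J a₀ w₀ z M : ℕ) (lam gam : ℕ → ℝ) (κ : ℝ) (q : D.Ω → ℝ), K ≤ K' → 1 ≤ z →
      D.Ok2 n K J a₀ w₀ z M lam gam κ C₁ q → ∀ (P : ℕ → PN) (ω ω' : D.Ω) (i j U X : ℕ),
      FrP D n K' M z C P ω → i + U < M → j < M → X + A * z ≤ U * z → 0 < q ω → 0 < q ω' →
      D.pt ω = D.pt ω' → ∀ l, 1 ≤ l → l ≤ n →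
        |ztS D i j (D.Ψ i j) ω l - ztS D i j (D.Ψ i j) ω' l| ≤ 1 / 2 ^ X := by
  obtain ⟨C₂, hC₂, htwo⟩ := Pool.PLK.plk_two n K' C hC 0
  obtain ⟨A₂, hA₂⟩ := exists_nat_ge (2 * C₂)
  obtain ⟨A₁, hA₁⟩ := exists_nat_ge (2 * C₁)
  refine ⟨A₁ + A₂ + 1, Nat.succ_pos _, ?_⟩
  intro D K J a₀ w₀ z M lam gam κ q hK hz hO P ω ω' i j U X hF hi hj hX hω hω' hpt l h1 h2
  have hz1 : (1 : ℝ) ≤ z := by exact_mod_cast hz
  have hT : D.T ω' = D.T ω := hO.pt_T _ _ hω' hω hpt.symm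
  have e0 : D.X ω' 0 = D.X ω 0 := by rw [hO.X_zero, hO.X_zero, hT]
  have s1 : D.s i j ω' = D.s i j ω := hO.s_pt i (by omega) j hj.le _ _ hω' hω hpt.symm
  have s2 : D.s (i + U) j ω' = D.s (i + U) j ω :=
    hO.s_pt (i + U) hi.le j hj.le _ _ hω' hω hpt.symm
  have p1 : D.Ψ i j ω' = D.Ψ i j ω := by
    unfold NDat2.Ψ
    rw [s1]
  have p2 : D.Ψ (i + U) j ω' = D.Ψ (i + U) j ω := by
    unfold NDat2.Ψ
    rw [s2]
  have hlev : ∀ r, 1 ≤ r → r ≤ n → D.g i j r + (X + A₂ * z) ≤ D.g (i + U) j r := by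
    intro r r1 r2
    have g1 := abs_le.1 (hO.hom i (by omega) j hj.le r r1 r2)
    have g2 := abs_le.1 (hO.hom (i + U) hi.le j hj.le r r1 r2)
    have g3 := hO.lam_ge r
    have g4 : (X : ℝ) + (A₁ + A₂ + 1) * z ≤ U * z := by exact_mod_cast hX
    have g5 : (U : ℝ) * z ≤ lam r * U * z := by
      have : 0 ≤ (lam r - 1) * (U * z) := mul_nonneg (by linarith) (by positivity)
      linarith
    have g6 : 2 * C₁ * z ≤ A₁ * z := mul_le_mul_of_nonneg_right hA₁ (by linarith)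
    push_cast at g2
    have g7 : ((D.g i j r + (X + A₂ * z) : ℕ) : ℝ) ≤ (D.g (i + U) j r : ℕ) := by
      push_cast
      nlinarith [g1.1, g1.2, g2.1, g2.2]
    exact_mod_cast g7
  have hm := htwo D K z M i j (i + U) j i j n (X + A₂ * z) (D.Ψ i j) (D.Ψ (i + U) j) (D.Ψ i j)
    ω ω' P hK hz (by omega) hj hi hj (by omega) hj le_rfl (fun i j x => hO.G_tri i j x)
    (fun i j x l => hO.G_deg i j x l) hF
    (sd_vis hO (by omega) hj.le hω) (sd_vis hO hi.le hj.le hω) (sd_vis hO (by omega) hj.le hω)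
    (sd_vis hO (by omega) hj.le hω') (sd_vis hO hi.le hj.le hω') p1 p2 p1 e0
    (fun r r1 r2 => Or.inr (by have := hlev r r1 r2; omega))
    (fun r _ _ => by omega) l h1 h2
  rw [abs_sub_comm]
  refine hm.trans ?_
  rw [div_le_div_iff₀ (by positivity) (by positivity), one_mul, pow_add, mul_comm]
  refine mul_le_mul_of_nonneg_left ?_ (by positivity)
  have e1 : exp (C₂ * z) ≤ exp (A₂ * z * Real.log 2) := by
    refine exp_le_exp.2 ?_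
    have l2 : (1 : ℝ) / 2 ≤ Real.log 2 := by
      have := Real.log_two_gt_d9
      linarith
    have h3 : C₂ * z ≤ A₂ * z * (1 / 2) := by
      have : 2 * C₂ * z ≤ A₂ * z := mul_le_mul_of_nonneg_right hA₂ (by linarith)
      linarith
    refine h3.trans (mul_le_mul_of_nonneg_left l2 (by positivity))
  refine e1.trans (le_of_eq ?_)
  rw [show (A₂ * z * Real.log 2 : ℝ) = ((A₂ * z : ℕ) : ℝ) * Real.log 2 by push_cast; ring,
    Real.exp_nat_mul, Real.exp_log (by norm_num)]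

/-- **Two samples of one exact point**, off an event. -/
theorem two_ev (n K : ℕ) (lam gam : ℕ → ℝ) (C₁ : ℝ) (hC₁ : 1 ≤ C₁) : ∃ A : ℕ, 1 ≤ A ∧
    ∀ (M : ℕ) (η : ℝ), 2 ≤ M → 0 < η → ∃ (κ₀ : ℝ) (z₀ : ℕ), 0 < κ₀ ∧
    ∀ (J a₀ w₀ z : ℕ) (κ : ℝ) (D : NDat2) (q : D.Ω → ℝ), z₀ ≤ z → κ ≤ κ₀ →
      D.Ok2 n K J a₀ w₀ z M lam gam κ C₁ q → ∃ E : Set D.Ω, Pb q (fun ω => ω ∉ E) ≤ η ∧
      ∀ (ω ω' : D.Ω) (i j U X : ℕ), ω ∈ E → i + U < M → j < M → X + A * z ≤ U * z →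
        0 < q ω → 0 < q ω' → D.pt ω = D.pt ω' → ∀ l, 1 ≤ l → l ≤ n →
          |ztS D i j (D.Ψ i j) ω l - ztS D i j (D.Ψ i j) ω' l| ≤ 1 / 2 ^ X := by
  obtain ⟨K', C, hKK, hC, hfr⟩ := frm_ev n K lam gam C₁ hC₁
  obtain ⟨A, hA, htwo⟩ := two_fr n K' C C₁ hC
  refine ⟨A, hA, fun M η hM hη => ?_⟩
  obtain ⟨κ₀, z₀, hκ₀, h⟩ := hfr M η hM hη
  refine ⟨κ₀, max z₀ 1, hκ₀, ?_⟩
  intro J a₀ w₀ z κ D q hz hκ hO
  refine ⟨{ω | Fra D n K' M z C ω}, h J a₀ w₀ z κ D q (le_trans (le_max_left _ _) hz) hκ hO, ?_⟩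
  intro ω ω' i j U X hE hi hj hX hω hω' hpt
  obtain ⟨P, hP⟩ := fra_iff.1 hE
  exact htwo D K J a₀ w₀ z M lam gam κ q hKK (le_trans (le_max_right _ _) hz) hO P ω ω' i j U X hP
    hi hj hX hω hω' hpt

end Pool.VAS
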